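import Pool.Agent.H.MP_97cbc3_al.E

namespace Pool.Agent.Results.MP_97cbc3_al.Yes

open CategoryTheory

universe u

/-- `neg w P` is the class `P^w`: the letters of `w` are applied from left to right,
`true` is the letter `l` and `false` is the letter `r`. -/
def neg (w : List Bool) (P : MorphismProperty TopCat.{u}) : MorphismProperty TopCat.{u} :=
  w.foldl (fun Q b => cond b Q.llp Q.rlp) P

theorem result : (Set.range neg.{u}).Finite :=
  Pool.Agent.H.MP_97cbc3_al.finite_neg

end Pool.Agent.Results.MP_97cbc3_al.Yes
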